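import Pool.Agent.Helper61.BT.Goals
import Pool.Agent.Helper24.VF.TRC

/-!
# BT-TCH: the trace inequality with a projection
-/

set_option autoImplicit false

namespace Pool.Agent.Helper24.BT

open Pool.Agent.Helper27.VF Pool.Agent.Helper38.VF Pool.Agent.Helper61.BT
open Pool.Agent.Helper24.VF (eqv_of eqv_comm)

universe u

theorem tch (h1 : Tr1Stmt.{u}) (h2 : T2bStmt.{u}) (h3 : RtrStmt.{u}) : TchStmt.{u} := by
  intro A _ n k C P hC hP1 hP2 hP3 hP4
  classical
  have key : ∀ η : ℝ, 0 < η → tr' P - k * η ≤ n := by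
    intro η hη
    obtain ⟨S, hS1, hS2, hS3⟩ := h2 (L2 (Fin n × A)) (L2 (Fin k × A)) C P hP1 hP2 hP3 k
      (fun j => (lp.single 2 (j, (1 : A)) (1 : ℝ) : L2 (Fin k × A))) (fun j => hP4 _) η hη
    have hcomm : ∀ (h : A) (R₁ : L2 (Fin n × A) ≃ₗᵢ[ℝ] L2 (Fin n × A))
        (R₂ : L2 (Fin k × A) ≃ₗᵢ[ℝ] L2 (Fin k × A)), (∀ f z, R₁ f z = f (z.1, z.2 * h)) →
        (∀ f z, R₂ f z = f (z.1, z.2 * h)) →
        (∀ y, S (R₂ y) = R₂ (S y)) ∧ ∀ y, C.adjoint (R₂ y) = R₁ (C.adjoint y) :=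
      fun h R₁ R₂ hR₁ hR₂ => hS3 R₁ R₂ fun x => eqv_comm hC h R₁ R₂ hR₁ hR₂ x
    have hSe : Eqv S := by
      refine eqv_of S h3 fun h R₁ R₂ hR₁ hR₂ f => ?_
      obtain ⟨R₀, hR₀⟩ := h3 A n h
      have hRR : R₁ = R₂ := by
        ext1 f
        apply lp.ext
        funext z
        rw [hR₁, hR₂]
      rw [hRR]
      exact (hcomm h R₀ R₂ hR₀ hR₂).1 f
    have hPe : Eqv (C.adjoint.comp S) := by
      refine eqv_of _ h3 fun h R₁ R₂ hR₁ hR₂ f => ?_
      have := hcomm h R₂ R₁ hR₂ hR₁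
      simp only [ContinuousLinearMap.comp_apply]
      rw [this.1, this.2]
    have hCC : Eqv (C.comp C.adjoint) := by
      refine eqv_of _ h3 fun h R₁ R₂ hR₁ hR₂ f => ?_
      obtain ⟨R₀, hR₀⟩ := h3 A n h
      simp only [ContinuousLinearMap.comp_apply]
      rw [(hcomm h R₀ R₁ hR₀ hR₁).2, eqv_comm hC h R₀ R₂ hR₀ hR₂]
    have t1 : tr' ((C.adjoint.comp S).comp C) = tr' (C.comp (C.adjoint.comp S)) :=
      h1 A k n (C.adjoint.comp S) C hPe hC
    have t2 : tr' ((C.comp C.adjoint).comp S) = tr' (S.comp (C.comp C.adjoint)) :=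
      h1 A k k (C.comp C.adjoint) S hCC hSe
    have t3 : C.comp (C.adjoint.comp S) = (C.comp C.adjoint).comp S := by
      ext1 x
      rfl
    have b1 : tr' ((C.adjoint.comp S).comp C) ≤ n := by
      unfold tr'
      have hj : ∀ j : Fin n, (((C.adjoint.comp S).comp C)
          (lp.single 2 (j, (1 : A)) (1 : ℝ) : L2 (Fin n × A))) (j, 1) ≤ 1 := by
        intro j
        have h := hS1 (lp.single 2 (j, (1 : A)) (1 : ℝ) : L2 (Fin n × A))
        rw [lp.inner_single_right, lp.norm_single (by norm_num)] at h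
        simpa using h
      calc _ ≤ ∑ _j : Fin n, (1 : ℝ) := Finset.sum_le_sum fun j _ => hj j
        _ = n := by simp
    have b2 : tr' P - k * η ≤ tr' (S.comp (C.comp C.adjoint)) := by
      unfold tr'
      have hj : ∀ j : Fin k, (P (lp.single 2 (j, (1 : A)) (1 : ℝ) : L2 (Fin k × A))) (j, 1) - η ≤
          ((S.comp (C.comp C.adjoint))
            (lp.single 2 (j, (1 : A)) (1 : ℝ) : L2 (Fin k × A))) (j, 1) := by
        intro j
        have h := hS2 j
        have e1 : ‖P (lp.single 2 (j, (1 : A)) (1 : ℝ) : L2 (Fin k × A))‖ ^ 2 =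
            inner ℝ (P (lp.single 2 (j, (1 : A)) (1 : ℝ) : L2 (Fin k × A)))
              (lp.single 2 (j, (1 : A)) (1 : ℝ) : L2 (Fin k × A)) := by
          rw [← real_inner_self_eq_norm_sq, ← hP1, hP2]
        rw [e1, lp.inner_single_right, lp.inner_single_right] at h
        simpa using h
      calc _ = ∑ j : Fin k,
            ((P (lp.single 2 (j, (1 : A)) (1 : ℝ) : L2 (Fin k × A))) (j, 1) - η) := by
            rw [Finset.sum_sub_distrib, Finset.sum_const, Finset.card_univ, Fintype.card_fin,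
              nsmul_eq_mul]
        _ ≤ _ := Finset.sum_le_sum fun j _ => hj j
    rw [t3, t2] at t1
    linarith
  refine le_of_forall_pos_le_add fun ε hε => ?_
  have hk0 : (0 : ℝ) < (k : ℝ) + 1 := by positivity
  have h := key (ε / ((k : ℝ) + 1)) (by positivity)
  have h5 : (k : ℝ) * (ε / ((k : ℝ) + 1)) ≤ ε := by
    rw [mul_div_assoc', div_le_iff₀ hk0]
    nlinarith
  linarith

end Pool.Agent.Helper24.BT
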